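import Pool.Agent.H13.CubeDim.Limit

/-!
# Continuous images of cubes with fibres in countably many hyperplanes

Negative answer to Q1 of MP_be0572_gt, in every dimension `n ≥ 1` of the cube (`n = 3` is the
question): there are countably many hyperplanes of `ℝ^n` and a continuous map from `[0,1]^n` to a
metric space all of whose fibres with more than one point lie in the union of the hyperplanes,
and whose image has covering dimension at most `2`.
-/

set_option autoImplicit false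

open Set Filter Topology

namespace Pool.Agent.Results.MP_be0572_gt.HyperplaneFibres

/-- `G = [0,1]^n` as a subspace of Euclidean space. -/
def cube (n : ℕ) : Set (EuclideanSpace ℝ (Fin n)) := {x | ∀ i, 0 ≤ x i ∧ x i ≤ 1}

/-- `P` is a hyperplane of `ℝ^n`: a nonempty affine subspace of dimension `n - 1` (a plane if
`n = 3`). -/
def IsHyperplane {n : ℕ} (P : AffineSubspace ℝ (EuclideanSpace ℝ (Fin n))) : Prop :=
  (P : Set (EuclideanSpace ℝ (Fin n))).Nonempty ∧ Module.finrank ℝ P.direction + 1 = n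

/-- The covering dimension of the space `X` is at most `d`: every finite open cover of `X` has a
finite open refinement in which every point lies in at most `d + 1` members. -/
def CovDimLE (X : Type) [TopologicalSpace X] (d : ℕ) : Prop :=
  ∀ (m : ℕ) (U : Fin m → Set X), (∀ i, IsOpen (U i)) → (∀ x, ∃ i, x ∈ U i) →
    ∃ (l : ℕ) (V : Fin l → Set X), (∀ j, IsOpen (V j)) ∧ (∀ x, ∃ j, x ∈ V j) ∧
      (∀ j, ∃ i, V j ⊆ U i) ∧ ∀ x, {j | x ∈ V j}.ncard ≤ d + 1

lemma isCompact_cube (n : ℕ) : IsCompact (cube n) := by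
  have h : cube n = (EuclideanSpace.equiv (Fin n) ℝ).toHomeomorph ⁻¹'
      (Set.Icc (0 : Fin n → ℝ) 1) := by
    ext x
    constructor
    · intro hx
      exact ⟨fun i => (hx i).1, fun i => (hx i).2⟩
    · rintro ⟨h1, h2⟩ i
      exact ⟨h1 i, h2 i⟩
  rw [h, Homeomorph.isCompact_preimage]
  exact isCompact_Icc

/-- Points with a rational coordinate. -/
def ratPts (n : ℕ) : Set (cube n) := {x | ∃ (i : Fin n) (q : ℚ), x.1 i = q}

lemma rich_cube (n : ℕ) : H13.CubeDim.Rich (ratPts n) := by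
  intro x N hN
  have hN' : ∃ ε > 0, ∀ y : cube n, (∀ i, |y.1 i - x.1 i| ≤ ε) → y ∈ N := by
    set e := (EuclideanSpace.equiv (Fin n) ℝ).toHomeomorph with he
    have hind : Topology.IsInducing (fun y : cube n => e y.1) :=
      e.isInducing.comp Topology.IsInducing.subtypeVal
    rw [hind.nhds_eq_comap] at hN
    obtain ⟨t, ht, hts⟩ := hN
    obtain ⟨ε, hε, hball⟩ := Metric.mem_nhds_iff.1 ht
    refine ⟨ε / 2, by positivity, fun y hy => hts (hball ?_)⟩
    rw [Metric.mem_ball]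
    refine lt_of_le_of_lt ((dist_pi_le_iff (by positivity : (0 : ℝ) ≤ ε / 2)).2 fun i => ?_)
      (by linarith)
    rw [Real.dist_eq]
    exact hy i
  obtain ⟨ε, hε, hball⟩ := hN'
  have h1 : ∀ i : Fin n, ∃ q : ℚ, x.1 i - ε < q ∧ (q : ℝ) < x.1 i :=
    fun i => exists_rat_btwn (by linarith)
  have h2 : ∀ i : Fin n, ∃ q : ℚ, x.1 i < q ∧ (q : ℝ) < x.1 i + ε :=
    fun i => exists_rat_btwn (by linarith)
  choose a ha1 ha2 using h1
  choose c hc1 hc2 using h2
  have hco : ∀ i : Fin n, Continuous (fun y : cube n => y.1 i) := fun i => by fun_prop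
  have hVo : IsOpen {y : cube n | ∀ i, (a i : ℝ) < y.1 i ∧ y.1 i < c i} := by
    have : {y : cube n | ∀ i, (a i : ℝ) < y.1 i ∧ y.1 i < c i} =
        ⋂ i, ({y : cube n | (a i : ℝ) < y.1 i} ∩ {y : cube n | y.1 i < c i}) := by
      ext y; simp
    rw [this]
    exact isOpen_iInter_of_finite (fun i => (isOpen_lt continuous_const (hco i)).inter
      (isOpen_lt (hco i) continuous_const))
  have hcl : closure {y : cube n | ∀ i, (a i : ℝ) < y.1 i ∧ y.1 i < c i} ⊆
      {y : cube n | ∀ i, (a i : ℝ) ≤ y.1 i ∧ y.1 i ≤ c i} := by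
    refine closure_minimal (fun y hy i => ⟨(hy i).1.le, (hy i).2.le⟩) ?_
    have : {y : cube n | ∀ i, (a i : ℝ) ≤ y.1 i ∧ y.1 i ≤ c i} =
        ⋂ i, ({y : cube n | (a i : ℝ) ≤ y.1 i} ∩ {y : cube n | y.1 i ≤ c i}) := by
      ext y; simp
    rw [this]
    exact isClosed_iInter (fun i => (isClosed_le continuous_const (hco i)).inter
      (isClosed_le (hco i) continuous_const))
  refine ⟨_, hVo, fun i => ⟨ha2 i, hc1 i⟩, ?_, ?_⟩
  · intro y hy
    apply hball
    intro i
    have h3 := hcl hy i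
    have h4 := ha1 i
    have h5 := hc2 i
    exact abs_le.2 ⟨by linarith [h3.1], by linarith [h3.2]⟩
  · rintro y ⟨hy1, hy2⟩
    rw [hVo.interior_eq] at hy2
    have h3 := hcl hy1
    simp only [mem_ofPred_eq, not_forall] at hy2
    obtain ⟨i, hi⟩ := hy2
    by_cases h4 : (a i : ℝ) < y.1 i
    · refine ⟨i, c i, le_antisymm (h3 i).2 ?_⟩
      by_contra h5
      exact hi ⟨h4, not_le.1 h5⟩
    · exact ⟨i, a i, le_antisymm (not_lt.1 h4) (h3 i).1⟩

/-- The coordinate `x ↦ x i`. -/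
noncomputable def coord {n : ℕ} (i : Fin n) : EuclideanSpace ℝ (Fin n) →ₗ[ℝ] ℝ :=
  ((EuclideanSpace.proj i : EuclideanSpace ℝ (Fin n) →L[ℝ] ℝ) :
    EuclideanSpace ℝ (Fin n) →ₗ[ℝ] ℝ)

lemma coord_apply {n : ℕ} (i : Fin n) (x : EuclideanSpace ℝ (Fin n)) : coord i x = x i := rfl

/-- The hyperplane `x i = q`. -/
noncomputable def hyp {n : ℕ} (t : Fin n × ℚ) : AffineSubspace ℝ (EuclideanSpace ℝ (Fin n)) :=
  AffineSubspace.mk' (EuclideanSpace.single t.1 (t.2 : ℝ)) (LinearMap.ker (coord t.1))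

lemma mem_hyp {n : ℕ} (t : Fin n × ℚ) (x : EuclideanSpace ℝ (Fin n)) :
    x ∈ hyp t ↔ x t.1 = t.2 := by
  unfold hyp
  rw [AffineSubspace.mem_mk']
  simp [sub_eq_zero, coord_apply]

lemma hyp_dim {n : ℕ} (t : Fin n × ℚ) : IsHyperplane (hyp t) := by
  refine ⟨⟨EuclideanSpace.single t.1 (t.2 : ℝ), (mem_hyp t _).2 (by simp)⟩, ?_⟩
  unfold hyp
  rw [AffineSubspace.direction_mk']
  have h := LinearMap.finrank_range_add_finrank_ker (coord t.1)
  have h1 : LinearMap.range (coord t.1) = ⊤ := by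
    rw [LinearMap.range_eq_top]
    intro r
    exact ⟨EuclideanSpace.single t.1 r, by simp [coord_apply]⟩
  rw [h1] at h
  simp only [finrank_top, Module.finrank_self, finrank_euclideanSpace, Fintype.card_fin] at h
  omega

/-- **Negative answer to Q1 (`n = 3`), in every dimension.** -/
theorem result (n : ℕ) (hn : 1 ≤ n) :
    ∃ (P : ℕ → AffineSubspace ℝ (EuclideanSpace ℝ (Fin n))) (Y : Type) (_ : MetricSpace Y)
      (f : cube n → Y),
      (∀ k, IsHyperplane (P k)) ∧ Continuous f ∧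
      (∀ y : Y, (f ⁻¹' {y}).Nontrivial → ∀ x ∈ f ⁻¹' {y}, ∃ k, x.1 ∈ P k) ∧
      CovDimLE (Set.range f) 2 := by
  have : CompactSpace (cube n) := isCompact_iff_compactSpace.1 (isCompact_cube n)
  have : Nonempty (Fin n × ℚ) := ⟨(⟨0, hn⟩, 0)⟩
  obtain ⟨F, hFc, hFi, hFd⟩ := H13.CubeDim.general (rich_cube n)
  obtain ⟨g, hg⟩ := exists_surjective_nat (Fin n × ℚ)
  refine ⟨fun k => hyp (g k), _, inferInstance, F, fun k => hyp_dim _, hFc, ?_, ?_⟩
  · intro y hy x hx
    obtain ⟨x', hx', hne⟩ := hy.exists_ne x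
    have hxx : F x = F x' := (show F x = y from hx).trans (show F x' = y from hx').symm
    obtain ⟨i, q, hq⟩ := hFi x x' hxx hne.symm
    obtain ⟨k, hk⟩ := hg (i, q)
    refine ⟨k, ?_⟩
    rw [show (fun k => hyp (g k)) k = hyp (i, q) by simp [hk], mem_hyp]
    exact hq
  · intro m U hU hcov
    have : CompactSpace (Set.range F) := isCompact_iff_compactSpace.1 (isCompact_range hFc)
    obtain ⟨δ, hδ, hball⟩ := lebesgue_number_lemma_of_metric (isCompact_univ (X := Set.range F))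
      hU (fun x _ => mem_iUnion.2 (hcov x))
    obtain ⟨l, V, h1, h2, h3, h4⟩ := hFd δ hδ
    have hx0 : (0 : EuclideanSpace ℝ (Fin n)) ∈ cube n := fun i => by simp
    obtain ⟨i0, -⟩ := hcov ⟨F ⟨0, hx0⟩, mem_range_self _⟩
    refine ⟨l, V, h1, h3, fun j => ?_, fun y => by simpa using h4 y⟩
    rcases (V j).eq_empty_or_nonempty with he | ⟨v, hv⟩
    · exact ⟨i0, by rw [he]; exact empty_subset _⟩
    · obtain ⟨i, hi⟩ := hball v (mem_univ v)
      refine ⟨i, fun w hw => hi ?_⟩
      rw [Metric.mem_ball]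
      exact h2 j w hw v hv

end Pool.Agent.Results.MP_be0572_gt.HyperplaneFibres
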